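import Pool.Agent.N463.MI.Stm

/-!
# Project MI (helper463), part E03: the real integral
-/

set_option autoImplicit false

namespace Pool.Agent.N592.MI

open MeasureTheory Set Pool.Agent.N463.MI

/-- `log (1 + a e^{-v})` -/
noncomputable def fa (a v : ℝ) : ℝ := Real.log (1 + a * Real.exp (-v))

lemma fa_cont {a : ℝ} (ha : 0 ≤ a) : Continuous (fa a) := by
  unfold fa
  refine Continuous.log (by fun_prop) fun v => ?_
  have := Real.exp_pos (-v)
  positivity

lemma fa_int {a : ℝ} (ha : 0 ≤ a) (c : ℝ) : IntegrableOn (fa a) (Ioi c) := by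
  refine Integrable.mono' ((exp_neg_integrableOn_Ioi c one_pos).const_mul a)
    (fa_cont ha).aestronglyMeasurable ?_
  refine Filter.Eventually.of_forall fun v => ?_
  have h1 := Real.exp_pos (-v)
  have h2 : 0 ≤ a * Real.exp (-v) := by positivity
  unfold fa
  rw [Real.norm_eq_abs, abs_of_nonneg (Real.log_nonneg (by linarith))]
  have := Real.log_le_sub_one_of_pos (x := 1 + a * Real.exp (-v)) (by linarith)
  rw [neg_one_mul]
  linarith

lemma shift (L : ℝ) : ∫ u in Ioi (0 : ℝ), fa 1 (u - L) = ∫ v in Ioi (-L), fa 1 v := by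
  have h := (measurePreserving_sub_right volume L).setIntegral_preimage_emb
    (MeasurableEquiv.subRight L).measurableEmbedding (fa 1) (Ioi (-L))
  rw [← h]
  have e : (fun x : ℝ => x - L) ⁻¹' Ioi (-L) = Ioi 0 := by
    ext x
    simp
  rw [e]

lemma fa_shift {a : ℝ} (ha : 0 < a) (u : ℝ) : fa a u = fa 1 (u - Real.log a) := by
  unfold fa
  have e : -(u - Real.log a) = Real.log a + -u := by ring
  rw [e, Real.exp_add, Real.exp_log ha, one_mul]

lemma fa_neg (v : ℝ) : fa 1 (-v) = v + fa 1 v := by
  unfold fa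
  rw [one_mul, one_mul, neg_neg]
  have e : 1 + Real.exp v = Real.exp v * (1 + Real.exp (-v)) := by
    rw [mul_add, ← Real.exp_add, add_neg_cancel, Real.exp_zero]
    ring
  have h1 := Real.exp_pos (-v)
  rw [e, Real.log_mul (Real.exp_pos v).ne' (by positivity), Real.log_exp]

theorem main {a : ℝ} (ha : 0 < a) : ∫ u in Ioi (0 : ℝ), (fa a u - fa 1 u) = cst a := by
  rw [integral_sub (fa_int ha.le 0) (fa_int zero_le_one 0)]
  have h1 : ∫ u in Ioi (0 : ℝ), fa a u = ∫ v in Ioi (-Real.log a), fa 1 v := by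
    rw [← shift]
    exact integral_congr_ae (Filter.Eventually.of_forall fun u => fa_shift ha u)
  have h2 := intervalIntegral.integral_interval_add_Ioi (fa_int zero_le_one (-Real.log a))
    (fa_int zero_le_one 0)
  have h3 : ∫ v in (-Real.log a)..0, fa 1 v = ∫ v in (0 : ℝ)..(Real.log a), fa 1 (-v) := by
    rw [intervalIntegral.integral_comp_neg, neg_zero]
  have c1 : Continuous (fa 1) := fa_cont zero_le_one
  have h4 : ∫ v in (0 : ℝ)..(Real.log a), fa 1 (-v) =
      (Real.log a) ^ 2 / 2 + ∫ v in (0 : ℝ)..(Real.log a), fa 1 v := by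
    simp_rw [fa_neg]
    have c0 : IntervalIntegrable (fun v : ℝ => v) volume 0 (Real.log a) :=
      continuous_id.intervalIntegrable _ _
    rw [intervalIntegral.integral_add c0 (c1.intervalIntegrable _ _), integral_id]
    ring
  rw [h1, ← h2, h3, h4, add_sub_cancel_right]
  unfold cst fa
  simp only [one_mul]

theorem t_E03 : E03 := by
  intro a ha
  have h0 : 0 < a := by rcases ha with h | h <;> rw [h] <;> norm_num
  rw [← main h0]
  unfold fa
  simp only [one_mul]

end Pool.Agent.N592.MI
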